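import Mathlib

/-!
# Trofimov's theorem on oscillating growth fails for finitely presented semigroups

There are increasing functions `f₁` (growing faster than `n ^ 2`) and `f₂` (growing slower than
`2 ^ n`) such that the growth function of every finitely presented semigroup is eventually at
least `f₁` or eventually at most `f₂`.
-/

set_option autoImplicit false

universe u

namespace Pool.Agent.Results.MP_dd6e79_al.NoFinPresOscillation

open Filter

/-- The elements of the semigroup `S` that can be written as a product of at most `n` (and at least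
one) elements of `X`. -/
def ball {S : Type u} [Semigroup S] (X : Set S) (n : ℕ) : Set S :=
  {s | ∃ (x : S) (l : List S), x ∈ X ∧ (∀ y ∈ l, y ∈ X) ∧ l.length + 1 ≤ n ∧
    l.foldl (fun a b => a * b) x = s}

/-- The growth function `f_S` of the semigroup `S` with respect to `X`. -/
noncomputable def growth {S : Type u} [Semigroup S] (X : Set S) (n : ℕ) : ℕ := (ball X n).ncard

/-- `f ⪯ g`. -/
def Dom (f g : ℕ → ℕ) : Prop := ∃ C : ℕ, 1 ≤ C ∧ ∀ n, f n ≤ C * g (C * n)

/-- `f ∼ g`. -/
def Equivalent (f g : ℕ → ℕ) : Prop := Dom f g ∧ Dom g f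

/-- `S` is given by finitely many generators and finitely many defining relations `u = v`. -/
def FinitelyPresented (S : Type u) [Semigroup S] : Prop :=
  ∃ (k : ℕ) (R : Set (FreeSemigroup (Fin k) × FreeSemigroup (Fin k))), R.Finite ∧
    Nonempty ((conGen fun v w => (v, w) ∈ R).Quotient ≃* S)

/-! ### Submultiplicativity of the growth function -/

section growth

variable {S : Type u} [Semigroup S]

/-- The product of a list of elements of `S` in the monoid `S ∪ {1}`. -/
def lprod (l : List S) : WithOne S := (l.map (fun x : S => (x : WithOne S))).prod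

lemma coe_foldl (l : List S) (x : S) :
    ((l.foldl (fun a b => a * b) x : S) : WithOne S) = lprod (x :: l) := by
  induction l generalizing x with
  | nil => simp [lprod]
  | cons y l ih =>
    rw [List.foldl_cons, ih]
    simp [lprod, mul_assoc]

/-- The ball of radius `n` in `S ∪ {1}`. -/
def ball1 (X : Set S) (n : ℕ) : Set (WithOne S) :=
  {s | ∃ l : List X, l.length ≤ n ∧ lprod (l.map Subtype.val) = s}

lemma ball1_eq (X : Set S) (n : ℕ) :
    ball1 X n = insert 1 ((fun s : S => (s : WithOne S)) '' ball X n) := by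
  ext s
  constructor
  · rintro ⟨l, hl, rfl⟩
    cases l with
    | nil => left; rfl
    | cons x l =>
      right
      refine ⟨(l.map Subtype.val).foldl (fun a b => a * b) x.1,
        ⟨x.1, l.map Subtype.val, x.2, ?_, ?_, rfl⟩, ?_⟩
      · intro y hy
        rw [List.mem_map] at hy
        obtain ⟨z, -, rfl⟩ := hy
        exact z.2
      · simpa using hl
      · show ((_ : S) : WithOne S) = _
        rw [coe_foldl]
        rfl
  · rintro (rfl | ⟨s, ⟨x, l, hx, hl, hn, rfl⟩, rfl⟩)
    · exact ⟨[], Nat.zero_le _, rfl⟩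
    · refine ⟨⟨x, hx⟩ :: l.pmap Subtype.mk hl, ?_, ?_⟩
      · simpa using hn
      · show _ = ((_ : S) : WithOne S)
        rw [coe_foldl]
        congr 1
        simp [List.map_pmap]

lemma ball1_finite {X : Set S} (hX : X.Finite) (n : ℕ) : (ball1 X n).Finite := by
  have : Finite X := hX
  have h : (ball1 X n) = (fun l : List X => lprod (l.map Subtype.val)) '' {l | l.length ≤ n} := rfl
  rw [h]
  exact (List.finite_length_le X n).image _

lemma ball_finite {X : Set S} (hX : X.Finite) (n : ℕ) : (ball X n).Finite := by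
  have h := ball1_finite hX n
  rw [ball1_eq] at h
  exact Set.Finite.of_finite_image (h.subset (Set.subset_insert _ _))
    (WithOne.coe_injective.injOn)

lemma ncard_ball1 {X : Set S} (hX : X.Finite) (n : ℕ) :
    (ball1 X n).ncard = growth X n + 1 := by
  rw [ball1_eq, Set.ncard_insert_of_notMem _ ((ball_finite hX n).image _),
    Set.ncard_image_of_injective _ WithOne.coe_injective]
  · rfl
  · rintro ⟨s, -, hs⟩
    exact WithOne.coe_ne_one hs

lemma ball1_add (X : Set S) (m n : ℕ) :
    ball1 X (m + n) ⊆ (fun p : WithOne S × WithOne S => p.1 * p.2) '' (ball1 X m ×ˢ ball1 X n) := by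
  rintro _ ⟨l, hl, rfl⟩
  refine ⟨(lprod ((l.take m).map Subtype.val), lprod ((l.drop m).map Subtype.val)),
    ⟨⟨l.take m, ?_, rfl⟩, ⟨l.drop m, ?_, rfl⟩⟩, ?_⟩
  · simp
  · simp; omega
  · show lprod ((l.take m).map Subtype.val) * lprod ((l.drop m).map Subtype.val) =
      lprod (l.map Subtype.val)
    unfold lprod
    rw [← List.prod_append, ← List.map_append, ← List.map_append, List.take_append_drop]

lemma growth_add {X : Set S} (hX : X.Finite) (m n : ℕ) :
    growth X (m + n) + 1 ≤ (growth X m + 1) * (growth X n + 1) := by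
  rw [← ncard_ball1 hX, ← ncard_ball1 hX, ← ncard_ball1 hX]
  have hfin := (ball1_finite hX m).prod (ball1_finite hX n)
  refine (Set.ncard_le_ncard (ball1_add X m n) (hfin.image _)).trans ?_
  rw [← Set.ncard_prod]
  exact Set.ncard_image_le hfin

lemma growth_mono {X : Set S} (hX : X.Finite) : Monotone (growth X) := by
  intro m n h
  refine Set.ncard_le_ncard ?_ (ball_finite hX n)
  rintro s ⟨x, l, hx, hl, hm, rfl⟩
  exact ⟨x, l, hx, hl, hm.trans h, rfl⟩

lemma growth_mul {X : Set S} (hX : X.Finite) (m q : ℕ) :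
    growth X (q * m) + 1 ≤ (growth X m + 1) ^ q := by
  induction q with
  | zero =>
    have : growth X 0 = 0 := by
      have : ball X 0 = ∅ := by
        ext s
        simp [ball]
      rw [growth, this, Set.ncard_empty]
    simp [this]
  | succ q ih =>
    rw [Nat.succ_mul, pow_succ]
    exact (growth_add hX _ _).trans (Nat.mul_le_mul_right _ ih)

end growth

/-- Isomorphic semigroups have the same growth functions. -/
lemma growth_preimage {S : Type*} {T : Type*} [Semigroup S] [Semigroup T] (e : S ≃* T)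
    (X : Set T) : growth (e ⁻¹' X) = growth X := by
  funext n
  have hfold : ∀ (l : List S) (x : S), e (l.foldl (fun a b => a * b) x) =
      (l.map e).foldl (fun a b => a * b) (e x) := by
    intro l
    induction l with
    | nil => intro x; rfl
    | cons y l ih => intro x; rw [List.foldl_cons, ih, List.map_cons, List.foldl_cons, map_mul]
  have h : e '' ball (e ⁻¹' X) n = ball X n := by
    ext t
    constructor
    · rintro ⟨_, ⟨x, l, hx, hl, hn, rfl⟩, rfl⟩
      refine ⟨e x, l.map e, hx, ?_, by simpa using hn, (hfold l x).symm⟩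
      intro y hy
      rw [List.mem_map] at hy
      obtain ⟨z, hz, rfl⟩ := hy
      exact hl z hz
    · rintro ⟨x, l, hx, hl, hn, rfl⟩
      refine ⟨(l.map e.symm).foldl (fun a b => a * b) (e.symm x),
        ⟨e.symm x, l.map e.symm, by simpa using hx, ?_, by simpa using hn, rfl⟩, ?_⟩
      · intro y hy
        rw [List.mem_map] at hy
        obtain ⟨z, hz, rfl⟩ := hy
        simpa using hl z hz
      · rw [hfold, List.map_map, MulEquiv.apply_symm_apply]
        congr 1
        conv_rhs => rw [← List.map_id l]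
        congr 1
        funext y
        simp
  unfold growth
  rw [← h, Set.ncard_image_of_injective _ e.injective]

/-! ### Functions -/

/-- The properties of the growth functions which are used. -/
def Good (h : ℕ → ℕ) : Prop := Monotone h ∧ ∀ m q, h (q * m) + 1 ≤ (h m + 1) ^ q

lemma poly_le (C k : ℕ) : ∀ᶠ n : ℕ in atTop, (C * n ^ 2) ^ k ≤ 2 ^ n := by
  have h1 : Tendsto (fun n : ℕ => (C : ℝ) ^ k * ((n : ℝ) ^ (2 * k) / 2 ^ n)) atTop (nhds 0) := by
    have := (tendsto_pow_const_div_const_pow_of_one_lt (2 * k) (r := (2 : ℝ)) (by norm_num)).const_mul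
      ((C : ℝ) ^ k)
    simpa using this
  have h2 : ∀ᶠ n : ℕ in atTop, (C : ℝ) ^ k * ((n : ℝ) ^ (2 * k) / 2 ^ n) < 1 :=
    h1.eventually_lt_const (by norm_num)
  filter_upwards [h2] with n hn
  have h3 : (C : ℝ) ^ k * (n : ℝ) ^ (2 * k) < 2 ^ n := by
    rw [← mul_div_assoc, div_lt_one (by positivity)] at hn
    exact hn
  have h4 : (((C * n ^ 2) ^ k : ℕ) : ℝ) ≤ ((2 ^ n : ℕ) : ℝ) := by
    push_cast
    rw [mul_pow, ← pow_mul]
    exact h3.le
  exact_mod_cast h4

/-- A growth function which is infinitely often at most quadratic is subexponential. -/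
lemma subexp {h : ℕ → ℕ} (hh : Good h) {C : ℕ} (hC : ∃ᶠ n in atTop, h n < C * n ^ 2) (k : ℕ) :
    ∀ᶠ n in atTop, h n ^ k ≤ 2 ^ n := by
  obtain ⟨n₀, hn₀, hpoly, hpos⟩ := (hC.and_eventually
    ((poly_le C (2 * k)).and (eventually_ge_atTop 1))).exists
  filter_upwards [eventually_ge_atTop n₀] with n hn
  have h1 : n ≤ (n / n₀ + 1) * n₀ := by
    have := Nat.div_add_mod n n₀
    have h2 := Nat.mod_lt n (show 0 < n₀ by omega)
    nlinarith
  have h2 : n / n₀ * n₀ ≤ n := Nat.div_mul_le_self n n₀
  have h3 : h n ≤ (C * n₀ ^ 2) ^ (n / n₀ + 1) := by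
    have e1 := hh.1 h1
    have e2 := hh.2 n₀ (n / n₀ + 1)
    have e3 : (h n₀ + 1) ^ (n / n₀ + 1) ≤ (C * n₀ ^ 2) ^ (n / n₀ + 1) :=
      Nat.pow_le_pow_left hn₀ _
    omega
  have h4 : (h n ^ k) ^ 2 ≤ (2 ^ n) ^ 2 := by
    calc (h n ^ k) ^ 2 ≤ (((C * n₀ ^ 2) ^ (n / n₀ + 1)) ^ k) ^ 2 :=
          Nat.pow_le_pow_left (Nat.pow_le_pow_left h3 _) _
      _ = ((C * n₀ ^ 2) ^ (2 * k)) ^ (n / n₀ + 1) := by
          rw [← pow_mul, ← pow_mul, ← pow_mul]
          congr 1
          ring
      _ ≤ (2 ^ n₀) ^ (n / n₀ + 1) := Nat.pow_le_pow_left hpoly _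
      _ = 2 ^ (n / n₀ * n₀ + n₀) := by
          rw [← pow_mul]
          congr 1
          ring
      _ ≤ 2 ^ (n * 2) := Nat.pow_le_pow_right (by norm_num) (by omega)
      _ = (2 ^ n) ^ 2 := by rw [pow_mul]
  exact (Nat.pow_le_pow_iff_left (by norm_num)).1 h4

/-- Diagonalisation. -/
lemma diag (P : ℕ → ℕ → Prop) (hP : ∀ k, ∀ᶠ n in atTop, P k n) :
    ∃ g : ℕ → ℕ, Monotone g ∧ Tendsto g atTop atTop ∧ ∀ n, g n ≠ 0 → P (g n) n := by
  classical
  choose N hN using fun k => eventually_atTop.1 (hP k)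
  refine ⟨fun n => Nat.findGreatest (fun k => N k ≤ n) n, ?_, ?_, ?_⟩
  · intro m n hmn
    exact Nat.findGreatest_mono (fun k hk => le_trans hk hmn) hmn
  · rw [tendsto_atTop]
    intro k
    filter_upwards [eventually_ge_atTop (max k (N k))] with n hn
    exact Nat.le_findGreatest ((le_max_left _ _).trans hn) ((le_max_right _ _).trans hn)
  · intro n hn
    have h1 : N (Nat.findGreatest (fun k => N k ≤ n) n) ≤ n :=
      Nat.findGreatest_of_ne_zero (P := fun k => N k ≤ n) rfl hn
    exact hN _ n h1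

/-- The combinatorial statement about a sequence of functions. -/
lemma diagonal (h : ℕ → ℕ → ℕ) (hh : ∀ i, Good (h i)) :
    ∃ f₁ f₂ : ℕ → ℕ, StrictMono f₁ ∧ StrictMono f₂ ∧
      Dom (fun n => n ^ 2) f₁ ∧ ¬ Equivalent f₁ (fun n => n ^ 2) ∧
      Dom f₂ (fun n => 2 ^ n) ∧ ¬ Equivalent f₂ (fun n => 2 ^ n) ∧
      ∀ i, (∀ᶠ n in atTop, f₁ n ≤ h i n) ∨ (∀ᶠ n in atTop, h i n ≤ f₂ n) := by
  classical
  -- the functions which grow faster than `n ^ 2`
  let A : Set ℕ := {i | ∀ C : ℕ, ∀ᶠ n in atTop, C * n ^ 2 ≤ h i n}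
  have hB : ∀ i, i ∉ A → ∀ k, ∀ᶠ n in atTop, h i n ^ k ≤ 2 ^ n := by
    intro i hi k
    have : ∃ C : ℕ, ∃ᶠ n in atTop, h i n < C * n ^ 2 := by
      by_contra hne
      push Not at hne
      apply hi
      intro C
      have := hne C
      filter_upwards [this] with n hn
      omega
    obtain ⟨C, hC⟩ := this
    exact subexp (hh i) hC k
  obtain ⟨g₁, g₁m, g₁t, hg₁⟩ := diag (fun k n => ∀ i, i < k → i ∈ A → (k + 2) * n ^ 2 ≤ h i n) (by
    intro k
    have : ∀ i ∈ Set.Iio k, ∀ᶠ n in atTop, (i ∈ A → (k + 2) * n ^ 2 ≤ h i n) := by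
      intro i _
      by_cases hi : i ∈ A
      · filter_upwards [hi (k + 2)] with n hn _ using hn
      · exact Eventually.of_forall fun n h' => absurd h' hi
    have := (eventually_all_finite (Set.finite_Iio k)).2 this
    filter_upwards [this] with n hn i hik using hn i hik)
  obtain ⟨g₂, g₂m, g₂t, hg₂⟩ := diag (fun k n => ∀ i, i < k → i ∉ A → h i n ^ k ≤ 2 ^ n) (by
    intro k
    have : ∀ i ∈ Set.Iio k, ∀ᶠ n in atTop, (i ∉ A → h i n ^ k ≤ 2 ^ n) := by
      intro i _
      by_cases hi : i ∈ A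
      · exact Eventually.of_forall fun n h' => absurd hi h'
      · filter_upwards [hB i hi k] with n hn _ using hn
    have := (eventually_all_finite (Set.finite_Iio k)).2 this
    filter_upwards [this] with n hn i hik using hn i hik)
  -- the maximum of the first `g₂ n` functions which do not grow faster than `n ^ 2`
  let F : ℕ → ℕ := fun n => ((Finset.range (g₂ n)).filter (· ∉ A)).sup (fun i => h i n)
  have Fmono : Monotone F := by
    intro m n hmn
    refine Finset.sup_le fun i hi => ?_
    rw [Finset.mem_filter, Finset.mem_range] at hi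
    refine ((hh i).1 hmn).trans ?_
    refine Finset.le_sup (f := fun i => h i n) ?_
    rw [Finset.mem_filter, Finset.mem_range]
    exact ⟨hi.1.trans_le (g₂m hmn), hi.2⟩
  have Fpow : ∀ k, ∀ᶠ n in atTop, F n ^ k ≤ 2 ^ n := by
    intro k
    filter_upwards [g₂t.eventually_ge_atTop (k + 1)] with n hn
    have hne : g₂ n ≠ 0 := by omega
    rcases Nat.eq_zero_or_pos (F n) with h0 | hpos
    · rw [h0]
      rcases Nat.eq_zero_or_pos k with rfl | hk
      · simpa using Nat.one_le_two_pow
      · rw [zero_pow (by omega)]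
        exact Nat.zero_le _
    · have h1 : F n ^ g₂ n ≤ 2 ^ n := by
        have hne' : ((Finset.range (g₂ n)).filter (· ∉ A)).Nonempty := by
          by_contra hemp
          rw [Finset.not_nonempty_iff_eq_empty] at hemp
          have : F n = 0 := by
            show ((Finset.range (g₂ n)).filter (· ∉ A)).sup (fun i => h i n) = 0
            rw [hemp]
            rfl
          omega
        obtain ⟨i, hi, hi'⟩ := Finset.exists_mem_eq_sup _ hne' (fun i => h i n)
        rw [Finset.mem_filter, Finset.mem_range] at hi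
        show (((Finset.range (g₂ n)).filter (· ∉ A)).sup (fun i => h i n)) ^ g₂ n ≤ 2 ^ n
        rw [hi']
        exact hg₂ n hne i hi.1 hi.2
      exact (Nat.pow_le_pow_right hpos (by omega)).trans h1
  refine ⟨fun n => (g₁ n + 1) * n ^ 2 + n, fun n => n + F n, ?_, ?_, ?_, ?_, ?_, ?_, ?_⟩
  · intro m n hmn
    have h1 := g₁m hmn.le
    have h2 : m ^ 2 ≤ n ^ 2 := Nat.pow_le_pow_left hmn.le 2
    have h3 : (g₁ m + 1) * m ^ 2 ≤ (g₁ n + 1) * n ^ 2 := Nat.mul_le_mul (by omega) h2
    show (g₁ m + 1) * m ^ 2 + m < (g₁ n + 1) * n ^ 2 + n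
    omega
  · intro m n hmn
    have := Fmono hmn.le
    show m + F m < n + F n
    omega
  · refine ⟨1, le_rfl, fun n => ?_⟩
    show n ^ 2 ≤ 1 * ((g₁ (1 * n) + 1) * (1 * n) ^ 2 + 1 * n)
    simp only [one_mul]
    nlinarith [Nat.zero_le (g₁ n * n ^ 2)]
  · rintro ⟨⟨C, hC, hle⟩, -⟩
    obtain ⟨n, hn, hn1⟩ := ((g₁t.eventually_ge_atTop (C * C ^ 2)).and
      (eventually_ge_atTop 1)).exists
    have h1 := hle n
    simp only at h1
    have h2 : (C * C ^ 2 + 1) * n ^ 2 ≤ (g₁ n + 1) * n ^ 2 := Nat.mul_le_mul_right _ (by omega)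
    have h3 : C * (C * n) ^ 2 = C * C ^ 2 * n ^ 2 := by ring
    rw [h3] at h1
    have h4 : 0 < n ^ 2 := by positivity
    nlinarith
  · have h1 := Fpow 1
    rw [eventually_atTop] at h1
    obtain ⟨N, hN⟩ := h1
    refine ⟨F N + 2, by omega, fun n => ?_⟩
    show n + F n ≤ (F N + 2) * 2 ^ ((F N + 2) * n)
    have h2 : n ≤ 2 ^ n := Nat.lt_two_pow_self.le
    have h3 : (2 : ℕ) ^ n ≤ 2 ^ ((F N + 2) * n) :=
      Nat.pow_le_pow_right (by norm_num) (Nat.le_mul_of_pos_left n (by omega))
    have h4 : F n ≤ F N + 2 ^ n := by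
      rcases le_total N n with h | h
      · have := hN n h
        rw [pow_one] at this
        omega
      · have := Fmono h
        omega
    have h5 : 1 ≤ 2 ^ ((F N + 2) * n) := Nat.one_le_two_pow
    nlinarith [Nat.zero_le (F N)]
  · rintro ⟨-, ⟨C, hC, hle⟩⟩
    -- `2 ^ n ≤ C * (C * n + F (C * n))` for all `n`, but `F (C * n) ^ 2 ≤ 2 ^ n` for large `n`
    have h1 : Tendsto (fun n : ℕ => C * n) atTop atTop :=
      tendsto_id.const_mul_atTop' (by omega)
    have h2 := h1.eventually (Fpow (2 * C))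
    obtain ⟨n, hn, hn2, hn3⟩ := (h2.and ((poly_le (2 * C ^ 2) 2).and
      (eventually_ge_atTop (4 * C ^ 2 + 2)))).exists
    have h3 : F (C * n) ^ 2 ≤ 2 ^ n := by
      have : (F (C * n) ^ 2) ^ C ≤ (2 ^ n) ^ C := by
        rw [← pow_mul, ← pow_mul, mul_comm n C]
        exact hn
      exact (Nat.pow_le_pow_iff_left (by omega)).1 this
    have h4 := hle n
    simp only at h4
    -- `C * (C * n) < 2 ^ n / 2` and `C * F (C * n) < 2 ^ n / 2`
    have h5 : 2 * (C * (C * n)) < 2 ^ n := by
      have e1 : (2 * C ^ 2 * n ^ 2) ^ 2 = (2 * (C * (C * n))) * (2 * C ^ 2 * n ^ 3) := by ring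
      have hC0 : 0 < C := by omega
      have hn0 : 0 < n := by omega
      have e2 : 1 < 2 * C ^ 2 * n ^ 3 := by
        have : 0 < C ^ 2 * n ^ 3 := by positivity
        nlinarith
      have e3 : 0 < 2 * (C * (C * n)) := by positivity
      nlinarith
    have h6 : 2 * (C * F (C * n)) < 2 ^ n := by
      by_contra hge
      push Not at hge
      have e1 : (2 ^ n) ^ 2 ≤ (2 * (C * F (C * n))) ^ 2 := Nat.pow_le_pow_left hge 2
      have e2 : (2 * (C * F (C * n))) ^ 2 = 4 * C ^ 2 * F (C * n) ^ 2 := by ring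
      rw [e2] at e1
      have e3 : 4 * C ^ 2 * F (C * n) ^ 2 ≤ 4 * C ^ 2 * 2 ^ n := Nat.mul_le_mul_left _ h3
      have e4 : (2 : ℕ) ^ n * 2 ^ n ≤ 4 * C ^ 2 * 2 ^ n := by
        rw [← sq]
        exact e1.trans e3
      have e5 : 2 ^ n ≤ 4 * C ^ 2 := Nat.le_of_mul_le_mul_right e4 (by positivity)
      have e6 : n < 2 ^ n := Nat.lt_two_pow_self
      omega
    have h7 : C * (C * n + F (C * n)) = C * (C * n) + C * F (C * n) := by ring
    omega
  · intro i
    by_cases hi : i ∈ A
    · left
      filter_upwards [g₁t.eventually_ge_atTop (i + 1), eventually_ge_atTop 1] with n hn hn1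
      have h1 := hg₁ n (by omega) i (by omega) hi
      have h2 : n ≤ n ^ 2 := by nlinarith
      show (g₁ n + 1) * n ^ 2 + n ≤ h i n
      nlinarith
    · right
      filter_upwards [g₂t.eventually_ge_atTop (i + 1)] with n hn
      have h1 : h i n ≤ F n := by
        refine Finset.le_sup (f := fun i => h i n) ?_
        rw [Finset.mem_filter, Finset.mem_range]
        exact ⟨by omega, hi⟩
      show h i n ≤ n + F n
      omega

/-! ### The theorem -/

/-- The finite presentations with finite subsets of the semigroups. -/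
abbrev Code : Type := Σ k : ℕ, Σ R : Finset (FreeSemigroup (Fin k) × FreeSemigroup (Fin k)),
  Finset (conGen fun v w : FreeSemigroup (Fin k) => (v, w) ∈ R).Quotient

/-- The growth function given by a code. -/
noncomputable def codeGrowth (c : Code) : ℕ → ℕ :=
  growth (c.2.2 : Set (conGen fun v w : FreeSemigroup (Fin c.1) => (v, w) ∈ c.2.1).Quotient)

/-- There are strictly increasing functions `f₁ ⪰ n ^ 2` and `f₂ ⪯ 2 ^ n`, not equivalent to
`n ^ 2` and to `2 ^ n`, respectively, such that for every finitely presented semigroup `S` and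
every finite generating set `X` of `S` the growth function of `S` with respect to `X` is at least
`f₁ n` for all large `n`, or it is at most `f₂ n` for all large `n`. -/
theorem result : ∃ f₁ f₂ : ℕ → ℕ, StrictMono f₁ ∧ StrictMono f₂ ∧
    Dom (fun n => n ^ 2) f₁ ∧ ¬ Equivalent f₁ (fun n => n ^ 2) ∧
    Dom f₂ (fun n => 2 ^ n) ∧ ¬ Equivalent f₂ (fun n => 2 ^ n) ∧
    ∀ (S : Type u) [Semigroup S] (X : Set S), FinitelyPresented S → X.Finite →
      Subsemigroup.closure X = ⊤ →
      (∀ᶠ n in atTop, f₁ n ≤ growth X n) ∨ (∀ᶠ n in atTop, growth X n ≤ f₂ n) := by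
  classical
  have hcount : Countable Code := by
    have h1 : ∀ k : ℕ, Countable (FreeSemigroup (Fin k)) := by
      intro k
      have : Function.Injective (fun w : FreeSemigroup (Fin k) => (w.head, w.tail)) := by
        rintro ⟨a, b⟩ ⟨c, d⟩ h
        simp only [Prod.mk.injEq] at h
        rw [h.1, h.2]
      exact this.countable
    have h2 : ∀ (k : ℕ) (R : Finset (FreeSemigroup (Fin k) × FreeSemigroup (Fin k))),
        Countable (conGen fun v w : FreeSemigroup (Fin k) => (v, w) ∈ R).Quotient := by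
      intro k R
      have := h1 k
      exact Quotient.countable
    infer_instance
  have hne : Nonempty Code := ⟨⟨0, ∅, ∅⟩⟩
  obtain ⟨enum, henum⟩ := exists_surjective_nat Code
  obtain ⟨f₁, f₂, a1, a2, a3, a4, a5, a6, a7⟩ := diagonal (fun i => codeGrowth (enum i)) (by
    intro i
    exact ⟨growth_mono (Finset.finite_toSet _), fun m q => growth_mul (Finset.finite_toSet _) m q⟩)
  refine ⟨f₁, f₂, a1, a2, a3, a4, a5, a6, ?_⟩
  rintro S _ X ⟨k, R, hR, ⟨e⟩⟩ hX -
  have hR' : R = (hR.toFinset : Set _) := hR.coe_toFinset.symm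
  obtain ⟨R', rfl⟩ : ∃ R' : Finset (FreeSemigroup (Fin k) × FreeSemigroup (Fin k)), R = R' :=
    ⟨hR.toFinset, hR'⟩
  have hXe : (e ⁻¹' X).Finite := hX.preimage e.injective.injOn
  obtain ⟨i, hi⟩ := henum ⟨k, R', hXe.toFinset⟩
  have h1 := a7 i
  rw [hi] at h1
  have h2 : codeGrowth ⟨k, R', hXe.toFinset⟩ = growth X := by
    unfold codeGrowth
    simp only [Set.Finite.coe_toFinset]
    exact growth_preimage e X
  rw [h2] at h1
  exact h1

end Pool.Agent.Results.MP_dd6e79_al.NoFinPresOscillation
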